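import Pool.Agent.Results.MP_fd999f_co.NoCapture

/-!
# The optimal bound for capturing `AA + 1` by a product set

There is one infinite set `X` of positive integers such that for every finite `A ⊆ X` and all
finite `E, F` the number `N` of elements of `AA + 1` captured by `EF` satisfies
`N * min (|E|, |F|, N) ≤ 24 * |EF|`. So a positive proportion of `AA + 1` can only be captured by a
product set of size `O(|AA|)` if `E` or `F` has bounded size, and this is sharp up to the constant.
-/

set_option autoImplicit false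

open scoped Pointwise
open Filter

namespace Pool.Agent.Results.MP_fd999f_co.OptimalCapture

open Pool.Agent.Results.MP_fd999f_co.NoCapture

/-- the number of elements of `(AA + 1) ∩ EF` -/
def captured (A E F : Finset ℕ) : ℕ := ((A * A).image (· + 1) ∩ (E * F)).card

lemma cop_mono {A B : Finset ℕ} (h : A ⊆ B) (hB : Cop B) : Cop A :=
  fun a ha b hb c hc d hd => hB a (h ha) b (h hb) c (h hc) d (h hd)

/-- one infinite set all of whose finite subsets have pairwise coprime numbers `ab + 1` -/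
lemma exists_infinite : ∃ X : Set ℕ, X.Infinite ∧ (∀ x ∈ X, 0 < x) ∧
    ∀ A : Finset ℕ, (A : Set ℕ) ⊆ X → Cop A := by
  classical
  let T := {A : Finset ℕ // (∀ a ∈ A, 0 < a) ∧ Cop A}
  have hstep : ∀ A : T, ∃ B : T, A.1 ⊆ B.1 ∧ B.1.card = A.1.card + 1 := by
    rintro ⟨A, hpos, hA⟩
    obtain ⟨x, hx, hx0, hcop⟩ := exists_extend A hA
    refine ⟨⟨insert x A, ?_, hcop⟩, Finset.subset_insert _ _, Finset.card_insert_of_notMem hx⟩
    intro a ha
    rcases Finset.mem_insert.1 ha with rfl | ha
    · exact hx0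
    · exact hpos a ha
  choose nxt hn1 hn2 using hstep
  obtain ⟨s, hs0, hs⟩ : ∃ s : ℕ → T, (s 0).1 = ∅ ∧ ∀ k, s (k + 1) = nxt (s k) :=
    ⟨fun k => Nat.rec (⟨∅, by simp, by intro a ha; simp at ha⟩ : T) (fun _ A => nxt A) k, rfl,
      fun _ => rfl⟩
  have hmono : Monotone fun k => (s k).1 := by
    refine monotone_nat_of_le_succ fun k => ?_
    rw [hs]
    exact hn1 (s k)
  have hcard : ∀ k, (s k).1.card = k := by
    intro k
    induction k with
    | zero => rw [hs0]; rfl
    | succ k ih => rw [hs, hn2, ih]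
  refine ⟨⋃ k, ((s k).1 : Set ℕ), ?_, ?_, ?_⟩
  · intro hfin
    have h1 : ∀ k, ((s k).1).card ≤ hfin.toFinset.card := fun k => by
      refine Finset.card_le_card fun x hx => ?_
      rw [Set.Finite.mem_toFinset]
      exact Set.mem_iUnion.2 ⟨k, hx⟩
    have h2 := h1 (hfin.toFinset.card + 1)
    rw [hcard] at h2
    omega
  · intro x hx
    obtain ⟨k, hk⟩ := Set.mem_iUnion.1 hx
    exact (s k).2.1 x hk
  · intro A hA
    have hex : ∃ k, A ⊆ (s k).1 := by
      induction A using Finset.induction_on with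
      | empty => exact ⟨0, Finset.empty_subset _⟩
      | insert a A ha ih =>
        obtain ⟨k, hk⟩ := ih (fun x hx => hA (by simp at hx; simp [hx]))
        obtain ⟨l, hl⟩ := Set.mem_iUnion.1 (hA (Finset.mem_coe.2 (Finset.mem_insert_self a A)))
        refine ⟨max k l, ?_⟩
        intro x hx
        rcases Finset.mem_insert.1 hx with rfl | hx
        · exact hmono (le_max_right k l) hl
        · exact hmono (le_max_left k l) (hk hx)
    obtain ⟨k, hk⟩ := hex
    exact cop_mono hk (s k).2.2

/-- the capture inequality -/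
lemma capture_ineq {A : Finset ℕ} (hpos : ∀ a ∈ A, 0 < a) (hcop : Cop A) (E F : Finset ℕ) :
    captured A E F * min (min E.card F.card) (captured A E F) ≤ 24 * (E * F).card := by
  classical
  have hS1 : ∀ s ∈ (A * A).image (· + 1), 1 < s := by
    intro s hs
    obtain ⟨t, ht, rfl⟩ := Finset.mem_image.1 hs
    obtain ⟨a, ha, b, hb, rfl⟩ := Finset.mem_mul.1 ht
    have := Nat.mul_pos (hpos a ha) (hpos b hb)
    omega
  have hScop : ∀ s ∈ (A * A).image (· + 1), ∀ t ∈ (A * A).image (· + 1), s ≠ t →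
      Nat.Coprime s t := by
    intro s hs t ht hst
    obtain ⟨s', hs', rfl⟩ := Finset.mem_image.1 hs
    obtain ⟨t', ht', rfl⟩ := Finset.mem_image.1 ht
    obtain ⟨a, ha, b, hb, rfl⟩ := Finset.mem_mul.1 hs'
    obtain ⟨c, hc, d, hd, rfl⟩ := Finset.mem_mul.1 ht'
    refine hcop a ha b hb c hc d hd ?_
    intro h
    apply hst
    rw [Sym2.eq_iff] at h
    rcases h with ⟨rfl, rfl⟩ | ⟨rfl, rfl⟩
    · rfl
    · rw [mul_comm]
  have hNP : captured A E F ≤ (E * F).card := Finset.card_le_card Finset.inter_subset_right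
  have hmain : ∀ m, m + 1 ≤ E.card → m + 1 ≤ F.card →
      m * captured A E F ≤ 2 * ((E * F).card + m ^ 2) := fun m h1 h2 =>
    two_side _ E F m hS1 hScop h1 h2
  set N := captured A E F with hN
  set P := (E * F).card with hP
  set K := min E.card F.card with hK
  by_cases hN8 : N < 8
  · have h1 : min K N ≤ 7 := (min_le_right _ _).trans (by omega)
    calc N * min K N ≤ N * 7 := Nat.mul_le_mul_left _ h1
      _ ≤ 24 * P := by omega
  by_cases hK2 : K < 2
  · have h1 : min K N ≤ 1 := (min_le_left _ _).trans (by omega)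
    calc N * min K N ≤ N * 1 := Nat.mul_le_mul_left _ h1
      _ ≤ 24 * P := by omega
  push Not at hN8 hK2
  have h1 := hmain (min (K - 1) (N / 4)) (by omega) (by omega)
  set m := min (K - 1) (N / 4) with hm
  have h2 : 4 * m ≤ N := by omega
  have h3 : min K N ≤ 6 * m := by omega
  have h4 : 4 * (m * m) ≤ m * N := by nlinarith
  have h5 : m * N ≤ 4 * P := by nlinarith
  calc N * min K N ≤ N * (6 * m) := Nat.mul_le_mul_left _ h3
    _ = 6 * (m * N) := by ring
    _ ≤ 24 * P := by omega

/-- **The optimal capture bound.** There is one infinite set `X` of positive integers with the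
following properties.

(1) For every finite `A ⊆ X` and all finite `E, F` the number `N = |(AA + 1) ∩ EF|` satisfies
`N * min (|E|, |F|, N) ≤ 24 * |EF|`.

(2) For all `c₃, c₄ > 0` and every finite `A ⊆ X` with `n = |AA| > 24 c₃ / c₄ ^ 2`: all sets `E, F`
(finite or infinite) with `|EF| ≤ c₃ n` and `|(AA + 1) ∩ EF| ≥ c₄ n` are finite, and one of them has
at most `24 c₃ / c₄` elements.

(3) For all `c₃, c₄, δ > 0` no finite `A ⊆ X` with `|AA|` large admits `E, F` with the four
properties of the question.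

(4) The bound (1) is sharp up to the constant, for every set `A`: for every finite set `A` of
positive integers and `1 ≤ K ≤ |AA|` there are `E, F` with `|E| = K`, `|F| = |AA|`, which capture
all of `AA + 1`, and `|EF| ≤ N * min (|E|, |F|, N)`. -/
theorem result :
    (∃ X : Set ℕ, X.Infinite ∧ (∀ x ∈ X, 0 < x) ∧
      (∀ A : Finset ℕ, (A : Set ℕ) ⊆ X → ∀ E F : Finset ℕ,
        captured A E F * min (min E.card F.card) (captured A E F) ≤ 24 * (E * F).card) ∧
      (∀ c₃ c₄ : ℝ, 0 < c₃ → 0 < c₄ → ∀ A : Finset ℕ, (A : Set ℕ) ⊆ X →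
        24 * c₃ / c₄ ^ 2 < (A * A).card → ∀ E F : Set ℕ,
          AtMost (E * F) (c₃ * (A * A).card) →
          c₄ * (A * A).card ≤ ((((A * A).image (· + 1) : Finset ℕ) : Set ℕ) ∩ (E * F)).ncard →
          E.Finite ∧ F.Finite ∧ min (E.ncard : ℝ) F.ncard ≤ 24 * c₃ / c₄) ∧
      (∀ c₃ c₄ δ : ℝ, 0 < c₃ → 0 < c₄ → 0 < δ → ∃ n₀ : ℕ, ∀ A : Finset ℕ, (A : Set ℕ) ⊆ X →
        n₀ ≤ (A * A).card → ∀ E F : Set ℕ, ¬ Captures c₃ c₄ δ A E F)) ∧
    (∀ A : Finset ℕ, (∀ a ∈ A, 0 < a) → ∀ K : ℕ, 1 ≤ K → K ≤ (A * A).card →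
      ∃ E F : Finset ℕ, E.card = K ∧ F.card = (A * A).card ∧ captured A E F = (A * A).card ∧
        (E * F).card ≤ captured A E F * min (min E.card F.card) (captured A E F)) := by
  classical
  obtain ⟨X, hXinf, hXpos, hXcop⟩ := exists_infinite
  have part1 : ∀ A : Finset ℕ, (A : Set ℕ) ⊆ X → ∀ E F : Finset ℕ,
      captured A E F * min (min E.card F.card) (captured A E F) ≤ 24 * (E * F).card :=
    fun A hA E F => capture_ineq (fun a ha => hXpos a (hA ha)) (hXcop A hA) E F
  have part2 : ∀ c₃ c₄ : ℝ, 0 < c₃ → 0 < c₄ → ∀ A : Finset ℕ, (A : Set ℕ) ⊆ X →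
      24 * c₃ / c₄ ^ 2 < (A * A).card → ∀ E F : Set ℕ,
        AtMost (E * F) (c₃ * (A * A).card) →
        c₄ * (A * A).card ≤ ((((A * A).image (· + 1) : Finset ℕ) : Set ℕ) ∩ (E * F)).ncard →
        E.Finite ∧ F.Finite ∧ min (E.ncard : ℝ) F.ncard ≤ 24 * c₃ / c₄ := by
    intro c₃ c₄ h3 h4 A hA hn E F hEF hcap
    obtain ⟨hfin, hEF⟩ := hEF
    have hn0 : (0 : ℝ) < (A * A).card := lt_of_le_of_lt (by positivity) hn
    have hcap0 : 0 < ((((A * A).image (· + 1) : Finset ℕ) : Set ℕ) ∩ (E * F)).ncard := by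
      have : (0 : ℝ) < ((((A * A).image (· + 1) : Finset ℕ) : Set ℕ) ∩ (E * F)).ncard :=
        lt_of_lt_of_le (mul_pos h4 hn0) hcap
      exact_mod_cast this
    obtain ⟨v, hv⟩ := Set.nonempty_of_ncard_ne_zero hcap0.ne'
    obtain ⟨hv1, e, he, f, hf, hef⟩ := hv
    have hv0 : e * f ≠ 0 := by
      obtain ⟨w, -, hw⟩ := Finset.mem_image.1 (Finset.mem_coe.1 hv1)
      have h : e * f = v := hef
      omega
    have he0 : e ≠ 0 := left_ne_zero_of_mul hv0
    have hf0 : f ≠ 0 := right_ne_zero_of_mul hv0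
    have hEfin : E.Finite := by
      have h1 : ((· * f) '' E).Finite :=
        hfin.subset (by rintro _ ⟨x, hx, rfl⟩; exact Set.mul_mem_mul hx hf)
      exact h1.of_finite_image (fun a _ b _ h =>
        Nat.eq_of_mul_eq_mul_right (Nat.pos_of_ne_zero hf0) h)
    have hFfin : F.Finite := by
      have h1 : ((e * ·) '' F).Finite :=
        hfin.subset (by rintro _ ⟨x, hx, rfl⟩; exact Set.mul_mem_mul he hx)
      exact h1.of_finite_image (fun a _ b _ h =>
        Nat.eq_of_mul_eq_mul_left (Nat.pos_of_ne_zero he0) h)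
    refine ⟨hEfin, hFfin, ?_⟩
    lift E to Finset ℕ using hEfin
    lift F to Finset ℕ using hFfin
    have e1 : ((E : Set ℕ) * (F : Set ℕ)) = ((E * F : Finset ℕ) : Set ℕ) := by
      rw [Finset.coe_mul]
    rw [e1] at hEF hcap
    rw [← Finset.coe_inter, Set.ncard_coe_finset] at hcap
    rw [Set.ncard_coe_finset] at hEF
    rw [Set.ncard_coe_finset, Set.ncard_coe_finset]
    have hcap' : c₄ * (A * A).card ≤ (captured A E F : ℝ) := hcap
    have hin := part1 A hA E F
    have hinR : (captured A E F : ℝ) * min (min (E.card : ℝ) F.card) (captured A E F) ≤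
        24 * ((E * F).card : ℝ) := by exact_mod_cast hin
    set N : ℝ := (captured A E F : ℝ) with hN
    set n : ℝ := ((A * A).card : ℝ) with hn'
    set k : ℝ := min (E.card : ℝ) F.card with hk
    have hN0 : 0 < N := lt_of_lt_of_le (mul_pos h4 hn0) hcap'
    have h24 : N * min k N ≤ 24 * (c₃ * n) := hinR.trans (by linarith)
    rcases le_total k N with hkN | hkN
    · rw [min_eq_left hkN] at h24
      have hk0 : 0 ≤ k := le_min (Nat.cast_nonneg _) (Nat.cast_nonneg _)
      have h5 : c₄ * n * k ≤ N * k := mul_le_mul_of_nonneg_right hcap' hk0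
      rw [le_div_iff₀ h4]
      have h6 : n * (k * c₄) ≤ n * (24 * c₃) := by nlinarith
      exact le_of_mul_le_mul_left h6 hn0
    · rw [min_eq_right hkN] at h24
      exfalso
      have h5 : (c₄ * n) * (c₄ * n) ≤ N * N :=
        mul_le_mul hcap' hcap' (by positivity) hN0.le
      have h6 : n * (c₄ ^ 2 * n) ≤ n * (24 * c₃) := by nlinarith
      have h7 : c₄ ^ 2 * n ≤ 24 * c₃ := le_of_mul_le_mul_left h6 hn0
      rw [div_lt_iff₀ (by positivity)] at hn
      linarith
  refine ⟨⟨X, hXinf, hXpos, part1, part2, ?_⟩, ?_⟩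
  · intro c₃ c₄ δ h3 h4 hδ
    have t1 : Tendsto (fun n : ℕ => (n : ℝ) ^ δ) atTop atTop :=
      (tendsto_rpow_atTop hδ).comp tendsto_natCast_atTop_atTop
    have hev : ∀ᶠ n : ℕ in atTop, 24 * c₃ / c₄ < (n : ℝ) ^ δ ∧ 24 * c₃ / c₄ ^ 2 < (n : ℝ) :=
      (t1.eventually_gt_atTop _).and (tendsto_natCast_atTop_atTop.eventually_gt_atTop _)
    obtain ⟨n0, hn0⟩ := eventually_atTop.1 hev
    refine ⟨n0, fun A hA hn E F hcap => ?_⟩
    obtain ⟨hE, hF, hEF, hc⟩ := hcap
    obtain ⟨h1, h2⟩ := hn0 _ hn
    obtain ⟨hEf, hFf, hmin⟩ := part2 c₃ c₄ h3 h4 A hA h2 E F hEF hc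
    have hE' : ((A * A).card : ℝ) ^ δ ≤ E.ncard := by
      rcases hE with h | h
      · exact absurd hEf h
      · exact h
    have hF' : ((A * A).card : ℝ) ^ δ ≤ F.ncard := by
      rcases hF with h | h
      · exact absurd hFf h
      · exact h
    have := le_min hE' hF'
    linarith
  · intro A hpos K hK1 hKn
    refine ⟨Finset.Icc 1 K, (A * A).image (· + 1), by simp, ?_, ?_, ?_⟩
    · exact Finset.card_image_of_injective _ (fun a b h => Nat.succ_injective h)
    · have hsub : (A * A).image (· + 1) ⊆ Finset.Icc 1 K * (A * A).image (· + 1) := by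
        intro x hx
        rw [← one_mul x]
        exact Finset.mul_mem_mul (Finset.mem_Icc.2 ⟨le_rfl, hK1⟩) hx
      unfold captured
      rw [Finset.inter_eq_left.2 hsub]
      exact Finset.card_image_of_injective _ (fun a b h => Nat.succ_injective h)
    · have hsub : (A * A).image (· + 1) ⊆ Finset.Icc 1 K * (A * A).image (· + 1) := by
        intro x hx
        rw [← one_mul x]
        exact Finset.mul_mem_mul (Finset.mem_Icc.2 ⟨le_rfl, hK1⟩) hx
      have hc : captured A (Finset.Icc 1 K) ((A * A).image (· + 1)) = (A * A).card := by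
        unfold captured
        rw [Finset.inter_eq_left.2 hsub]
        exact Finset.card_image_of_injective _ (fun a b h => Nat.succ_injective h)
      have hF : ((A * A).image (· + 1)).card = (A * A).card :=
        Finset.card_image_of_injective _ (fun a b h => Nat.succ_injective h)
      rw [hc, hF]
      have hE : (Finset.Icc 1 K).card = K := by simp
      rw [hE, min_eq_left hKn, min_eq_left hKn]
      refine Finset.card_mul_le.trans ?_
      rw [hE, hF, mul_comm]

end Pool.Agent.Results.MP_fd999f_co.OptimalCapture
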